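import Pool.Agent.H49Swan.Final

/-!
# Hopf orders without the Swan property

For every prime `p`, every non-abelian finite `p`-group `G` and every finite extension `K` of `ℚ_p`
with valuation ring `R` which contains a primitive root of unity of order the exponent of `G` there
is an `R`-Hopf order `Λ` in `K[G]` such that `G₀^R(Λ) → G₀(K[G])`, `[M] ↦ [K ⊗ M]`, is not
injective.  The definitions are in `Pool.Agent.H49Swan.Groth` and `Pool.Agent.H49Swan.Stmt`; an
outline of the proof is in `Pool.Agent.H49Swan.Final`.
-/

set_option autoImplicit false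

namespace Pool.Agent.Results.MP_f004b1_al.SwanFails

open Pool.Agent.H49Swan

/-- **Main theorem.** For every prime `p`, every finite extension `K` of `ℚ_p` with valuation ring
`R` (the integral closure of `ℤ_p` in `K`) and every non-abelian finite `p`-group `G` such that `K`
contains a primitive `e`-th root of unity, `e` the exponent of `G`, there is an `R`-Hopf order in
`K[G]` without the Swan property. -/
theorem result (p : ℕ) [Fact p.Prime] (K : Type) [Field K] [Algebra ℚ_[p] K]
    [FiniteDimensional ℚ_[p] K] [Algebra ℤ_[p] K] [IsScalarTower ℤ_[p] ℚ_[p] K]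
    (R : Type) [CommRing R] [Algebra R K] [IsIntegralClosure R ℤ_[p] K]
    (G : Type) [Group G] [Finite G] (hG : IsPGroup p G) (hnc : ∃ a b : G, a * b ≠ b * a)
    (hK : ∃ ω : K, IsPrimitiveRoot ω (Monoid.exponent G)) :
    ∃ (Λ : Type) (_ : Ring Λ) (_ : Algebra R Λ) (j : Λ →+* MonoidAlgebra K G),
      IsHopfOrderIncl R K j ∧ SwanPropertyFails R j :=
  exists_hopfOrder_not_swan p K R G hG hnc hK

end Pool.Agent.Results.MP_f004b1_al.SwanFails
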